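import Pool.Agent.Run7.h178.SL.Stm

/-! Piece SLIDE of the project SL of helper178 (MP_cf50d6_gt, MP_6de9fc_gt), by helper959. -/

set_option autoImplicit false

namespace Run7.h959.SL

open Run7.h178.SL

section
variable {R G : Type} [Group G] [DecidableEq R]

lemma step_symm {r r' : R → G} (h : QStep r r') : QEq r' r := by
  cases h with
  | mul j k h =>
    -- invert `k`, multiply, invert `k` again
    have e1 : QStep (Function.update r j (r j * r k))
        (Function.update (Function.update r j (r j * r k)) k
          ((Function.update r j (r j * r k)) k)⁻¹) := QStep.inv _ k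
    set s1 := Function.update (Function.update r j (r j * r k)) k
          ((Function.update r j (r j * r k)) k)⁻¹ with hs1
    have s1k : s1 k = (r k)⁻¹ := by
      rw [hs1, Function.update_self, Function.update_of_ne (Ne.symm h)]
    have s1j : s1 j = r j * r k := by
      rw [hs1, Function.update_of_ne h, Function.update_self]
    have e2 : QStep s1 (Function.update s1 j (s1 j * s1 k)) := QStep.mul s1 j k h
    set s2 := Function.update s1 j (s1 j * s1 k) with hs2
    have s2k : s2 k = (r k)⁻¹ := by
      rw [hs2, Function.update_of_ne (Ne.symm h), s1k]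
    have s2j : s2 j = r j := by
      rw [hs2, Function.update_self, s1j, s1k, mul_inv_cancel_right]
    have e3 : QStep s2 (Function.update s2 k (s2 k)⁻¹) := QStep.inv s2 k
    have e4 : Function.update s2 k (s2 k)⁻¹ = r := by
      funext i
      by_cases hik : i = k
      · subst hik
        rw [Function.update_self, s2k, inv_inv]
      · rw [Function.update_of_ne hik]
        by_cases hij : i = j
        · subst hij
          exact s2j
        · rw [hs2, Function.update_of_ne hij, hs1, Function.update_of_ne hik,
            Function.update_of_ne hij]
    rw [e4] at e3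
    exact ((Relation.ReflTransGen.single e1).tail e2).tail e3
  | inv j =>
    have e1 : QStep (Function.update r j (r j)⁻¹)
        (Function.update (Function.update r j (r j)⁻¹) j
          ((Function.update r j (r j)⁻¹) j)⁻¹) := QStep.inv _ j
    rw [Function.update_idem, Function.update_self, inv_inv, Function.update_eq_self] at e1
    exact Relation.ReflTransGen.single e1
  | conj j w =>
    have e1 : QStep (Function.update r j (w * r j * w⁻¹))
        (Function.update (Function.update r j (w * r j * w⁻¹)) j
          (w⁻¹ * (Function.update r j (w * r j * w⁻¹)) j * w⁻¹⁻¹)) := QStep.conj _ j w⁻¹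
    have e2 : w⁻¹ * (w * r j * w⁻¹) * w⁻¹⁻¹ = r j := by group
    rw [Function.update_idem, Function.update_self, e2, Function.update_eq_self] at e1
    exact Relation.ReflTransGen.single e1

lemma qeq_symm {r r' : R → G} (h : QEq r r') : QEq r' r := by
  induction h with
  | refl => exact Relation.ReflTransGen.refl
  | tail _ hs ih => exact (step_symm hs).trans ih

lemma step_le {r r' : R → G} (h : QStep r r') :
    Subgroup.normalClosure (Set.range r') ≤ Subgroup.normalClosure (Set.range r) := by
  have hr : ∀ i, r i ∈ Subgroup.normalClosure (Set.range r) := fun i =>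
    Subgroup.subset_normalClosure ⟨i, rfl⟩
  have hn : (Subgroup.normalClosure (Set.range r)).Normal := Subgroup.normalClosure_normal
  refine Subgroup.normalClosure_le_normal ?_
  rintro _ ⟨i, rfl⟩
  cases h with
  | mul j k h =>
    by_cases hij : i = j
    · subst hij
      rw [Function.update_self]
      exact Subgroup.mul_mem _ (hr _) (hr _)
    · rw [Function.update_of_ne hij]
      exact hr i
  | inv j =>
    by_cases hij : i = j
    · subst hij
      rw [Function.update_self]
      exact Subgroup.inv_mem _ (hr _)
    · rw [Function.update_of_ne hij]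
      exact hr i
  | conj j w =>
    by_cases hij : i = j
    · subst hij
      rw [Function.update_self]
      exact hn.conj_mem _ (hr _) w
    · rw [Function.update_of_ne hij]
      exact hr i

lemma qeq_le {r r' : R → G} (h : QEq r r') :
    Subgroup.normalClosure (Set.range r') ≤ Subgroup.normalClosure (Set.range r) := by
  induction h with
  | refl => exact le_refl _
  | tail _ hs ih => exact (step_le hs).trans ih

lemma mul_conj (r : R → G) (j k : R) (hk : k ≠ j) (g a : G) :
    QEq (Function.update r j a) (Function.update r j (a * (g * r k * g⁻¹))) := by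
  have e1 : QStep (Function.update r j a) (Function.update (Function.update r j a) j
      (g⁻¹ * (Function.update r j a) j * g⁻¹⁻¹)) := QStep.conj _ j g⁻¹
  rw [Function.update_idem, Function.update_self] at e1
  have e2 : QStep (Function.update r j (g⁻¹ * a * g⁻¹⁻¹))
      (Function.update (Function.update r j (g⁻¹ * a * g⁻¹⁻¹)) j
        ((Function.update r j (g⁻¹ * a * g⁻¹⁻¹)) j * (Function.update r j (g⁻¹ * a * g⁻¹⁻¹)) k)) :=
    QStep.mul _ j k (Ne.symm hk)
  rw [Function.update_idem, Function.update_self, Function.update_of_ne hk] at e2
  have e3 : QStep (Function.update r j (g⁻¹ * a * g⁻¹⁻¹ * r k))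
      (Function.update (Function.update r j (g⁻¹ * a * g⁻¹⁻¹ * r k)) j
        (g * (Function.update r j (g⁻¹ * a * g⁻¹⁻¹ * r k)) j * g⁻¹)) := QStep.conj _ j g
  rw [Function.update_idem, Function.update_self] at e3
  have e4 : g * (g⁻¹ * a * g⁻¹⁻¹ * r k) * g⁻¹ = a * (g * r k * g⁻¹) := by group
  rw [e4] at e3
  exact ((Relation.ReflTransGen.single e1).tail e2).tail e3

lemma mul_others (r : R → G) (j : R) (n : G) (hn : n ∈ others r j) :
    ∀ a : G, QEq (Function.update r j a) (Function.update r j (a * n)) := by
  unfold others Subgroup.normalClosure at hn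
  induction hn using Subgroup.closure_induction with
  | mem x hx =>
    intro a
    obtain ⟨y, ⟨k, hk, rfl⟩, hc⟩ := Group.mem_conjugatesOfSet_iff.1 hx
    obtain ⟨g, rfl⟩ := isConj_iff.1 hc
    exact mul_conj r j k hk g a
  | one =>
    intro a
    rw [mul_one]
    exact Relation.ReflTransGen.refl
  | mul x y _ _ hx hy =>
    intro a
    rw [← mul_assoc]
    exact (hx a).trans (hy (a * x))
  | inv x _ hx =>
    intro a
    have := hx (a * x⁻¹)
    rw [inv_mul_cancel_right] at this
    exact qeq_symm this

end

/-- the piece SLIDE -/
theorem t_SLIDE : S_SLIDE := by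
  intro R G _ _
  refine ⟨fun r j n hn => ?_, fun r r' h => le_antisymm (qeq_le h) (qeq_le (qeq_symm h)),
    fun r r' h => qeq_symm h⟩
  have := mul_others r j n hn (r j)
  rwa [Function.update_eq_self] at this

end Run7.h959.SL
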